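import Mathlib

/-!
# Strong arboricity is not bounded by the colouring number

For every `d ≥ 2` we construct a finite simple graph with colouring number exactly `d + 1`
whose strong arboricity is at least `2 * d`.  In particular (`d = 2`) there is a finite simple
graph with colouring number `3` and strong arboricity at least `4`.
-/

namespace Pool.Agent.Results.MP_5ca9a4_co.ColGap

/-- An edge colouring `c : G.edgeSet → ι` of a simple graph `G` is *strongly woody* if no broken
cycle is monochromatic: for every cycle `p` of `G`, every edge `e` of `p` and every colour `k`,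
some edge of `p` different from `e` does not have colour `k`. -/
def StronglyWoody {V : Type*} {ι : Type*} (G : SimpleGraph V) (c : G.edgeSet → ι) : Prop :=
  ∀ (v : V) (p : G.Walk v v), p.IsCycle → ∀ e : Sym2 V, e ∈ p.edges → ∀ k : ι,
    ∃ f : G.edgeSet, (f : Sym2 V) ∈ p.edges ∧ (f : Sym2 V) ≠ e ∧ c f ≠ k

/-- The strong arboricity of `G`: the least number `n` of colours in a strongly woody edge
colouring of `G`. -/
noncomputable def strongArboricity {V : Type*} (G : SimpleGraph V) : ℕ :=
  sInf {n : ℕ | ∃ c : G.edgeSet → Fin n, StronglyWoody G c}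

/-- The back-degree of `v` with respect to a linear order `o` of the vertices: the number of
neighbours of `v` that precede `v`. -/
noncomputable def backDegree {V : Type*} (G : SimpleGraph V) (o : LinearOrder V) (v : V) : ℕ :=
  {u : V | G.Adj v u ∧ o.lt u v}.ncard

/-- The colouring number of `G`: the least `r` such that for some linear order of the vertices
every back-degree is at most `r - 1`. -/
noncomputable def colouringNumber {V : Type*} (G : SimpleGraph V) : ℕ :=
  sInf {r : ℕ | ∃ o : LinearOrder V, ∀ v : V, backDegree G o v + 1 ≤ r}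

section basics

variable {V : Type*} {ι : Type*} {G : SimpleGraph V} {c : G.edgeSet → ι}

lemma StronglyWoody.tri (h : StronglyWoody G c) {x y z : V} (hxy : G.Adj x y) (hyz : G.Adj y z)
    (hzx : G.Adj z x) : c ⟨s(x, y), hxy⟩ ≠ c ⟨s(y, z), hyz⟩ := by
  intro heq
  have hxyn := hxy.ne
  have hyzn := hyz.ne
  have hzxn := hzx.ne
  let p : G.Walk x x := .cons hxy (.cons hyz (.cons hzx .nil))
  have hp : p.IsCycle := by
    rw [SimpleGraph.Walk.isCycle_def]
    refine ⟨?_, ?_, ?_⟩
    · simp [p, SimpleGraph.Walk.isTrail_def]
      tauto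
    · simp [p]
    · simp [p]
      tauto
  obtain ⟨f, hf, hfe, hfk⟩ := h x p hp s(z, x) (by simp [p]) (c ⟨s(x, y), hxy⟩)
  have hf' : (f : Sym2 V) = s(x, y) ∨ (f : Sym2 V) = s(y, z) ∨ (f : Sym2 V) = s(z, x) := by
    simpa [p] using hf
  rcases hf' with h1 | h1 | h1
  · apply hfk
    congr 1
    exact Subtype.ext h1
  · apply hfk
    rw [heq]
    congr 1
    exact Subtype.ext h1
  · exact hfe h1

lemma StronglyWoody.quad (h : StronglyWoody G c) {w x y z : V} (hwx : G.Adj w x)
    (hxy : G.Adj x y) (hyz : G.Adj y z) (hzw : G.Adj z w) (hwy : w ≠ y) (hxz : x ≠ z) :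
    ¬ (c ⟨s(w, x), hwx⟩ = c ⟨s(x, y), hxy⟩ ∧ c ⟨s(x, y), hxy⟩ = c ⟨s(y, z), hyz⟩) := by
  rintro ⟨h1, h2⟩
  have hwxn := hwx.ne
  have hxyn := hxy.ne
  have hyzn := hyz.ne
  have hzwn := hzw.ne
  let p : G.Walk w w := .cons hwx (.cons hxy (.cons hyz (.cons hzw .nil)))
  have hp : p.IsCycle := by
    rw [SimpleGraph.Walk.isCycle_def]
    refine ⟨?_, ?_, ?_⟩
    · simp [p, SimpleGraph.Walk.isTrail_def]
      tauto
    · simp [p]
    · simp [p]
      tauto
  obtain ⟨f, hf, hfe, hfk⟩ := h w p hp s(z, w) (by simp [p]) (c ⟨s(x, y), hxy⟩)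
  have hf' : (f : Sym2 V) = s(w, x) ∨ (f : Sym2 V) = s(x, y) ∨ (f : Sym2 V) = s(y, z) ∨
      (f : Sym2 V) = s(z, w) := by
    simpa [p] using hf
  rcases hf' with h3 | h3 | h3 | h3
  · apply hfk
    rw [← h1]
    congr 1
    exact Subtype.ext h3
  · apply hfk
    congr 1
    exact Subtype.ext h3
  · apply hfk
    rw [h2]
    congr 1
    exact Subtype.ext h3
  · exact hfe h3

/-- Every finite graph has a strongly woody colouring with finitely many colours. -/
lemma exists_stronglyWoody [Finite V] (G : SimpleGraph V) :
    ∃ n : ℕ, ∃ c : G.edgeSet → Fin n, StronglyWoody G c := by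
  classical
  have : Fintype V := Fintype.ofFinite V
  have : Fintype G.edgeSet := Fintype.ofFinite _
  refine ⟨Fintype.card G.edgeSet, Fintype.equivFin G.edgeSet, ?_⟩
  intro v p hp e he k
  have hlen : 3 ≤ p.edges.length := by
    rw [SimpleGraph.Walk.length_edges]; exact hp.three_le_length
  have hnd : p.edges.Nodup := hp.isTrail.edges_nodup
  have hcard : p.edges.toFinset.card = p.edges.length := List.toFinset_card_of_nodup hnd
  have h2 : 1 < (p.edges.toFinset.erase e).card := by
    rw [Finset.card_erase_of_mem (by simpa using he)]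
    omega
  obtain ⟨a, ha, b, hb, hab⟩ := Finset.one_lt_card.mp h2
  simp only [Finset.mem_erase, List.mem_toFinset] at ha hb
  have haE : a ∈ G.edgeSet := p.edges_subset_edgeSet ha.2
  have hbE : b ∈ G.edgeSet := p.edges_subset_edgeSet hb.2
  by_cases hk : Fintype.equivFin G.edgeSet ⟨a, haE⟩ = k
  · refine ⟨⟨b, hbE⟩, hb.2, hb.1, ?_⟩
    intro hbk
    have := (Fintype.equivFin G.edgeSet).injective (hk.trans hbk.symm)
    exact hab (congrArg Subtype.val this)
  · exact ⟨⟨a, haE⟩, ha.2, ha.1, hk⟩

end basics

section construction

variable (d M N : ℕ)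

/-- The vertex type of the construction: a clique of `d` vertices, `M` middle vertices, and `N`
top vertices for each `d`-subset of the middle vertices. -/
abbrev Vtx : Type := Fin d ⊕ (Fin M ⊕ ({S : Finset (Fin M) // S.card = d} × Fin N))

/-- The (oriented) adjacency relation of the construction. -/
def rel : Vtx d M N → Vtx d M N → Prop
  | .inl _, .inl _ => True
  | .inl _, .inr (.inl _) => True
  | .inr (.inl j), .inr (.inr (S, _)) => j ∈ S.1
  | _, _ => False

/-- The graph: the `d` bottom vertices form a clique, every middle vertex is joined to all bottom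
vertices, and every top vertex `(S, n)` is joined to the `d` middle vertices in `S`. -/
def graph : SimpleGraph (Vtx d M N) := SimpleGraph.fromRel (rel d M N)

variable {d M N}

lemma adj_uu {i i' : Fin d} (h : i ≠ i') : (graph d M N).Adj (.inl i) (.inl i') := by
  simp [graph, SimpleGraph.fromRel_adj, rel, h]

lemma adj_uv (i : Fin d) (j : Fin M) : (graph d M N).Adj (.inl i) (.inr (.inl j)) := by
  simp [graph, SimpleGraph.fromRel_adj, rel]

lemma adj_vu (i : Fin d) (j : Fin M) : (graph d M N).Adj (.inr (.inl j)) (.inl i) :=
  (adj_uv i j).symm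

lemma adj_vz {j : Fin M} {S : {S : Finset (Fin M) // S.card = d}} {n : Fin N} (h : j ∈ S.1) :
    (graph d M N).Adj (.inr (.inl j)) (.inr (.inr (S, n))) := by
  simp [graph, SimpleGraph.fromRel_adj, rel, h]

lemma adj_zv {j : Fin M} {S : {S : Finset (Fin M) // S.card = d}} {n : Fin N} (h : j ∈ S.1) :
    (graph d M N).Adj (.inr (.inr (S, n))) (.inr (.inl j)) := (adj_vz h).symm

/-- The height function giving the good vertex ordering. -/
noncomputable def height : Vtx d M N → ℕ
  | .inl i => i
  | .inr (.inl j) => d + j
  | .inr (.inr z) => d + M + (Fintype.equivFin _ z : ℕ)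

lemma height_injective : Function.Injective (height (d := d) (M := M) (N := N)) := by
  rintro (i | j | z) (i' | j' | z') h
  · simp only [height] at h
    rw [Fin.ext h]
  · simp only [height] at h
    have := i.2
    omega
  · simp only [height] at h
    have := i.2
    omega
  · simp only [height] at h
    have := i'.2
    omega
  · simp only [height] at h
    have : j = j' := Fin.ext (by omega)
    rw [this]
  · simp only [height] at h
    have := j.2
    omega
  · simp only [height] at h
    have := i'.2
    omega
  · simp only [height] at h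
    have := j'.2
    omega
  · simp only [height] at h
    have h1 : Fintype.equivFin _ z = Fintype.equivFin _ z' := Fin.ext (by omega)
    rw [(Fintype.equivFin _).injective h1]

lemma colouringNumber_graph (hM : 0 < M) : colouringNumber (graph d M N) = d + 1 := by
  classical
  apply le_antisymm
  · apply Nat.sInf_le
    refine ⟨LinearOrder.lift' height height_injective, ?_⟩
    intro v
    have key : {u : Vtx d M N | (graph d M N).Adj v u ∧ height u < height v}.ncard ≤ d := by
      rcases v with (i | j | ⟨S, n⟩)
      · have hsub : {u : Vtx d M N | (graph d M N).Adj (.inl i) u ∧ height u < height (.inl i : Vtx d M N)} ⊆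
            (Finset.univ.image (fun a : Fin d => (Sum.inl a : Vtx d M N)) : Finset _) := by
          rintro (i' | j' | z') ⟨-, h2⟩
          · simp
          · simp only [height] at h2
            have := i.2
            omega
          · simp only [height] at h2
            have := i.2
            omega
        calc _ ≤ ((Finset.univ.image (fun a : Fin d => (Sum.inl a : Vtx d M N)) :
                  Finset _) : Set (Vtx d M N)).ncard := Set.ncard_le_ncard hsub (Finset.finite_toSet _)
          _ ≤ d := by
            rw [Set.ncard_coe_finset]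
            exact Finset.card_image_le.trans (by simp)
      · have hsub : {u : Vtx d M N | (graph d M N).Adj (.inr (.inl j)) u ∧
            height u < height (.inr (.inl j) : Vtx d M N)} ⊆
            (Finset.univ.image (fun a : Fin d => (Sum.inl a : Vtx d M N)) : Finset _) := by
          rintro (i' | j' | z') ⟨h1, h2⟩
          · simp
          · simp [graph, SimpleGraph.fromRel_adj, rel] at h1
          · simp only [height] at h2
            have := j.2
            omega
        calc _ ≤ ((Finset.univ.image (fun a : Fin d => (Sum.inl a : Vtx d M N)) :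
                  Finset _) : Set (Vtx d M N)).ncard := Set.ncard_le_ncard hsub (Finset.finite_toSet _)
          _ ≤ d := by
            rw [Set.ncard_coe_finset]
            exact Finset.card_image_le.trans (by simp)
      · have hsub : {u : Vtx d M N | (graph d M N).Adj (.inr (.inr (S, n))) u ∧
            height u < height (.inr (.inr (S, n)) : Vtx d M N)} ⊆
            (S.1.image (fun a : Fin M => (Sum.inr (Sum.inl a) : Vtx d M N)) : Finset _) := by
          rintro (i' | j' | z') ⟨h1, h2⟩
          · simp [graph, SimpleGraph.fromRel_adj, rel] at h1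
          · simp [graph, SimpleGraph.fromRel_adj, rel] at h1
            exact Finset.mem_coe.2 (Finset.mem_image.2 ⟨j', h1, rfl⟩)
          · simp [graph, SimpleGraph.fromRel_adj, rel] at h1
        calc _ ≤ ((S.1.image (fun a : Fin M => (Sum.inr (Sum.inl a) : Vtx d M N)) :
                  Finset _) : Set (Vtx d M N)).ncard := Set.ncard_le_ncard hsub (Finset.finite_toSet _)
          _ ≤ d := by
            rw [Set.ncard_coe_finset]
            exact Finset.card_image_le.trans S.2.le
    exact Nat.succ_le_succ key
  · apply le_csInf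
    · refine ⟨Fintype.card (Vtx d M N) + 1, LinearOrder.lift' height height_injective, ?_⟩
      intro v
      refine Nat.succ_le_succ ?_
      calc _ ≤ (Set.univ : Set (Vtx d M N)).ncard :=
            Set.ncard_le_ncard (Set.subset_univ _) (Set.toFinite _)
        _ = Fintype.card (Vtx d M N) := by rw [Set.ncard_univ, Nat.card_eq_fintype_card]
    · rintro r ⟨o, ho⟩
      let K : Finset (Vtx d M N) :=
        insert (Sum.inr (Sum.inl ⟨0, hM⟩)) (Finset.univ.image (fun a : Fin d => (Sum.inl a : Vtx d M N)))
      have hKcard : K.card = d + 1 := by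
        rw [Finset.card_insert_of_notMem (by simp), Finset.card_image_of_injective _ Sum.inl_injective]
        simp
      have hKne : K.Nonempty := ⟨_, Finset.mem_insert_self _ _⟩
      have hKadj : ∀ a ∈ K, ∀ b ∈ K, a ≠ b → (graph d M N).Adj a b := by
        intro a ha b hb hab
        simp only [K, Finset.mem_insert, Finset.mem_image, Finset.mem_univ, true_and] at ha hb
        rcases ha with rfl | ⟨i, rfl⟩
        · rcases hb with rfl | ⟨i', rfl⟩
          · exact absurd rfl hab
          · exact adj_vu _ _
        · rcases hb with rfl | ⟨i', rfl⟩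
          · exact adj_uv _ _
          · exact adj_uu (fun h => hab (by rw [h]))
      obtain ⟨m, hmK, hmax⟩ := @Finset.exists_max_image _ _ o K id hKne
      have hsub : ((K.erase m : Finset _) : Set (Vtx d M N)) ⊆
          {u : Vtx d M N | (graph d M N).Adj m u ∧ o.lt u m} := by
        intro u hu
        simp only [Finset.coe_erase, Set.mem_sdiff, Finset.mem_coe, Set.mem_singleton_iff] at hu
        refine ⟨hKadj m hmK u hu.1 (fun h => hu.2 h.symm), ?_⟩
        exact @lt_of_le_of_ne _ o.toPartialOrder _ _ (hmax u hu.1) hu.2
      have h1 := Set.ncard_le_ncard hsub (Set.toFinite _)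
      rw [Set.ncard_coe_finset, Finset.card_erase_of_mem hmK, hKcard] at h1
      have h2 := ho m
      unfold backDegree at h2
      omega

/-- The main combinatorial lemma: no strongly woody colouring with fewer than `2 * d` colours. -/
lemma no_colouring (hd : 2 ≤ d) {k : ℕ} (hk : k < 2 * d) (hM : (2 * d) ^ d * d ≤ M)
    (hN : d * d * (2 * d) < N) (c : (graph d M N).edgeSet → Fin k)
    (h : StronglyWoody (graph d M N) c) : False := by
  classical
  -- colour vectors of the middle vertices
  let a : Fin M → (Fin d → Fin k) := fun j i => c ⟨s(.inl i, .inr (.inl j)), adj_uv i j⟩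
  have ha_inj : ∀ j, Function.Injective (a j) := by
    intro j i i' hii
    by_contra hne
    have := h.tri (adj_vu i j) (adj_uu hne) (adj_uv i' j)
    have h3 := h.tri (adj_uv i j) (adj_vu i' j) (adj_uu (Ne.symm hne))
    apply h3
    have e1 : c ⟨s(.inr (.inl j), .inl i'), adj_vu i' j⟩ = a j i' := by
      simp only [a]
      congr 1
      exact Subtype.ext Sym2.eq_swap
    rw [e1]
    exact hii
  -- pigeonhole
  obtain ⟨b, hb⟩ : ∃ b : Fin d → Fin k, d ≤ (Finset.univ.filter (fun j => a j = b)).card := by
    by_contra hcon
    push Not at hcon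
    have hsum : (Finset.univ : Finset (Fin M)).card =
        ∑ b : Fin d → Fin k, (Finset.univ.filter (fun j => a j = b)).card :=
      Finset.card_eq_sum_card_fiberwise (fun _ _ => Finset.mem_univ _)
    have hcardF : Fintype.card (Fin d → Fin k) = k ^ d := by simp
    by_cases hne : Nonempty (Fin d → Fin k)
    · have hlt : ∑ b : Fin d → Fin k, (Finset.univ.filter (fun j => a j = b)).card <
          ∑ _b : Fin d → Fin k, d :=
        Finset.sum_lt_sum_of_nonempty Finset.univ_nonempty (fun b _ => hcon b)
      rw [← hsum] at hlt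
      simp only [Finset.card_univ, Fintype.card_fin, Finset.sum_const, smul_eq_mul, hcardF] at hlt
      have : k ^ d ≤ (2 * d) ^ d := Nat.pow_le_pow_left hk.le d
      have : k ^ d * d ≤ (2 * d) ^ d * d := Nat.mul_le_mul_right d this
      omega
    · have : 0 < M := lt_of_lt_of_le (by positivity) hM
      exact hne ⟨a ⟨0, this⟩⟩
  obtain ⟨S, hSsub, hScard⟩ := Finset.exists_subset_card_eq hb
  have hS : ∀ j ∈ S, a j = b := fun j hj => (Finset.mem_filter.mp (hSsub hj)).2
  let T : {S : Finset (Fin M) // S.card = d} := ⟨S, hScard⟩
  -- the colours used on the edges from the top vertices over S avoid the range of b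
  let g : Fin N → (j : Fin M) → (hj : j ∈ S) → Fin k := fun n j hj =>
    c ⟨s(.inr (.inl j), .inr (.inr (T, n))), adj_vz (S := T) hj⟩
  have hbinj : Function.Injective b := by
    have hSne : S.Nonempty := by
      rw [← Finset.card_pos]; omega
    obtain ⟨j, hj⟩ := hSne
    rw [← hS j hj]
    exact ha_inj j
  have havoid : ∀ n j (hj : j ∈ S), g n j hj ∉ Finset.univ.image b := by
    intro n j hj hmem
    obtain ⟨i, -, hi⟩ := Finset.mem_image.mp hmem
    obtain ⟨j', hj'S, hj'⟩ : ∃ j' ∈ S, j' ≠ j := by
      have : 1 < S.card := by omega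
      exact Finset.exists_mem_ne this j
    have hq := h.quad (w := .inr (.inr (T, n))) (x := .inr (.inl j)) (y := .inl i)
      (z := .inr (.inl j')) (adj_zv (S := T) hj) (adj_vu i j) (adj_uv i j') (adj_vz (S := T) hj'S)
      (by simp) (by simpa using hj'.symm)
    apply hq
    have e1 : c ⟨s(.inr (.inr (T, n)), .inr (.inl j)), adj_zv (S := T) hj⟩ = g n j hj := by
      simp only [g]
      congr 1
      exact Subtype.ext Sym2.eq_swap
    have e2 : c ⟨s(.inr (.inl j), .inl i), adj_vu i j⟩ = a j i := by
      simp only [a]
      congr 1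
      exact Subtype.ext Sym2.eq_swap
    have e3 : c ⟨s(.inl i, .inr (.inl j')), adj_uv i j'⟩ = a j' i := rfl
    rw [e1, e2, e3, hS j hj, hS j' hj'S]
    exact ⟨hi.symm, rfl⟩
  -- each top vertex repeats a colour
  have hrep : ∀ n : Fin N, ∃ (x : (S × S) × Fin k), x.1.1 ≠ x.1.2 ∧
      g n x.1.1.1 x.1.1.2 = x.2 ∧ g n x.1.2.1 x.1.2.2 = x.2 := by
    intro n
    have hcardB : ((Finset.univ : Finset (Fin k)) \ Finset.univ.image b).card < S.card := by
      rw [Finset.card_sdiff_of_subset (Finset.subset_univ _), Finset.card_image_of_injective _ hbinj]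
      simp only [Finset.card_univ, Fintype.card_fin]
      omega
    obtain ⟨j, -, j', -, hne, heq⟩ := Finset.exists_ne_map_eq_of_card_lt_of_maps_to
      (s := S.attach) (t := (Finset.univ : Finset (Fin k)) \ Finset.univ.image b)
      (f := fun j => g n j.1 j.2) (by simpa using hcardB)
      (by
        intro j _
        simp only [Finset.coe_sdiff, Set.mem_sdiff, Finset.mem_coe]
        exact ⟨Finset.mem_univ _, havoid n j.1 j.2⟩)
    exact ⟨((j, j'), g n j'.1 j'.2), hne, heq, rfl⟩
  choose F hF using hrep
  have hnotinj : ¬ Function.Injective F := by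
    intro hinj
    have hle := Fintype.card_le_of_injective F hinj
    simp only [Fintype.card_fin, Fintype.card_prod, Fintype.card_coe, hScard] at hle
    have : d * d * k ≤ d * d * (2 * d) := Nat.mul_le_mul_left _ hk.le
    omega
  simp only [Function.Injective, not_forall] at hnotinj
  obtain ⟨n, n', hFeq, hnn⟩ := hnotinj
  obtain ⟨h1, h2, h3⟩ := hF n
  obtain ⟨h1', h2', h3'⟩ := hF n'
  rw [← hFeq] at h1' h2' h3'
  generalize F n = x at *
  obtain ⟨⟨j, j'⟩, col⟩ := x
  simp only at h1 h2 h3 h1' h2' h3'
  have hq := h.quad (w := .inr (.inl j.1)) (x := .inr (.inr (T, n))) (y := .inr (.inl j'.1))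
      (z := .inr (.inr (T, n'))) (adj_vz (S := T) j.2) (adj_zv (S := T) j'.2)
      (adj_vz (S := T) j'.2) (adj_zv (S := T) j.2)
      (by
        intro hh
        apply h1
        exact Subtype.ext (Sum.inl_injective (Sum.inr_injective hh)))
      (by
        intro hh
        apply hnn
        have := Sum.inr_injective (Sum.inr_injective hh)
        exact (Prod.ext_iff.mp this).2)
  apply hq
  have e1 : c ⟨s(.inr (.inl j.1), .inr (.inr (T, n))), adj_vz (S := T) j.2⟩ = g n j.1 j.2 := rfl
  have e2 : c ⟨s(.inr (.inr (T, n)), .inr (.inl j'.1)), adj_zv (S := T) j'.2⟩ = g n j'.1 j'.2 := by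
    simp only [g]
    congr 1
    exact Subtype.ext Sym2.eq_swap
  have e3 : c ⟨s(.inr (.inl j'.1), .inr (.inr (T, n'))), adj_vz (S := T) j'.2⟩ = g n' j'.1 j'.2 := rfl
  rw [e1, e2, e3, h2, h3, h3']
  exact ⟨rfl, rfl⟩

end construction

/-- **Strong arboricity is not bounded by the colouring number.**  For every `d ≥ 2` there is a
finite simple graph `G` with colouring number exactly `d + 1` and strong arboricity at least
`2 * d`.  For `d = 2` this is a graph with colouring number `3` and strong arboricity at least
`4`, refuting `ζ(G) ≤ col(G)`. -/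
theorem result (d : ℕ) (hd : 2 ≤ d) :
    ∃ (V : Type) (_ : Fintype V) (G : SimpleGraph V),
      colouringNumber G = d + 1 ∧ 2 * d ≤ strongArboricity G := by
  refine ⟨Vtx d ((2 * d) ^ d * d) (d * d * (2 * d) + 1), inferInstance, graph _ _ _, ?_, ?_⟩
  · exact colouringNumber_graph (by positivity)
  · apply le_csInf
    · exact exists_stronglyWoody _
    · rintro k ⟨c, hc⟩
      by_contra hlt
      push Not at hlt
      exact no_colouring hd hlt le_rfl (Nat.lt_succ_self _) c hc

end Pool.Agent.Results.MP_5ca9a4_co.ColGap
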